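import Pool.Agent.Y867.WR.Main

/-!
# Waring's problem for almost all real polynomials: `2 k + 1` values represent every large integer

The proof is by the circle method. For almost all lower coefficients the number of solutions of
`|f(x_1) + ... + f(x_k) - f(y_1) - ... - f(y_k)| ≤ k` in `k` separated intervals of length `P` has the optimal order of
magnitude, up to logarithms (an average over the coefficients, with a counting lemma for the power sums), and the
exponential sums of `f` are small on the minor arcs (Weyl's inequality for large denominators, a net of points and the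
second moment over the coefficients for the small ones). From the starting files and from colleagues: Weyl
differencing (`Pool.Agent.TH181.MW`, `Pool.Agent.TH181.MX`), Vinogradov's lemma (`Pool.Agent.H807R2.Dav`), the bound for
the number of divisors (`Pool.Agent.Helper112.Arith`).
From Mathlib: `Fin k → ℝ` carries the Lebesgue measure `MeasureTheory.volume`, and `∀ᵐ b : Fin k → ℝ` is: for all `b`
outside a null set; `⌊x⌋` is the integer part of `x`.
-/

set_option autoImplicit false

namespace Pool.Agent.Results.MP_efcac8_nt.AlmostAllPolynomials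

/-- Let `k ≥ 2` and `a > 0`. For almost every choice of the lower coefficients `b 0, ..., b (k - 1)` (in the sense of
the Lebesgue measure) the real polynomial `f(x) = a x ^ k + ∑ j, b j x ^ j` of degree `k` has the following property:
every large integer `N` is a sum of `2 k + 1` positive integers of the form `⌊f(n)⌋`, `n ≥ 1`, and it has at least
`c N ^ (1 + 1 / k)` such representations, for a constant `c > 0` depending on `f` (this is the order of magnitude
predicted by the Hardy and Littlewood formula). -/
theorem result (k : ℕ) (hk : 2 ≤ k) (a : ℝ) (ha : 0 < a) :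
    ∀ᵐ b : Fin k → ℝ, ∃ c : ℝ, 0 < c ∧ ∃ N₀ : ℕ, ∀ N : ℕ, N₀ ≤ N →
      ∃ S : Finset (Fin (2 * k + 1) → ℕ), c * (N : ℝ) ^ (1 + 1 / (k : ℝ)) ≤ (S.card : ℝ) ∧
        ∀ x ∈ S, (∀ i, 1 ≤ x i ∧ 0 < ⌊a * (x i : ℝ) ^ k + ∑ j : Fin k, b j * (x i : ℝ) ^ (j : ℕ)⌋) ∧
          ∑ i, ⌊a * (x i : ℝ) ^ k + ∑ j : Fin k, b j * (x i : ℝ) ^ (j : ℕ)⌋ = (N : ℤ) := by
  filter_upwards [Pool.Agent.Y867.WR.good_ae k hk a ha] with b hb
  exact Pool.Agent.Y867.WR.main1 k hk a ha b hb

end Pool.Agent.Results.MP_efcac8_nt.AlmostAllPolynomials
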