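import Mathlib
import Pool.Agent.Y434.WR.Circ
import Pool.Agent.Y614.WR.Low
import Pool.Agent.Y496.WR.Mvs
import Pool.Agent.Y935.WR.Main

/-!
# The bound `2 k + 1` in Waring's problem for almost all shifted `k`-th powers

Waring's problem with shifts asks for the number `s` of variables needed such that every large real
number `τ` is within `η` of a sum `(x_1 - μ_1)^k + ... + (x_s - μ_s)^k` with integers `x_i > μ_i`; the
integer version asks for the solutions of `⌊(x_1 - μ_1)^k⌋ + ... + ⌊(x_s - μ_s)^k⌋ = n`. We prove that for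
almost all shifts `μ` in `ℝ^s` (Lebesgue measure) `s = 2 k + 1` variables suffice, for every `k ≥ 2`, with `η`
as small as a fixed negative power of `τ`, and with a lower bound of the expected order of magnitude for
the number of solutions.

Proof: the mean over the shifts of the number of solutions of `|∑_{i ≤ k} (x_i - μ_i)^k - (y_i - μ_i)^k| < δ`,
`δ = 2^(-j)`, is almost that of the diagonal solutions, so (Borel-Cantelli) for almost all shifts there is a
mean value theorem with `2 k` variables (the conjectured exponent); the circle method on two such blocks of `k`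
variables and one more variable, where Weyl's inequality (for a shift which is not a Liouville number)
saves a power of `x` on all frequencies outside a window around `0`; the window is the product of the
Fejer kernel, which corresponds to a moving average over a short interval; the weight
`sin(π α (x - μ)^k)^2` makes the Fourier series of `⌊α (x - μ)^k⌋` converge absolutely.
-/

set_option autoImplicit false

open MeasureTheory Filter

namespace Pool.Agent.Results.MP_efcac8_nt.ShiftedPowers

/-- The set of the tuples of natural numbers `x i > μ i` with `|∑ (x i - μ i)^k - τ| < η`. -/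
def RealSol (k s : ℕ) (μ : Fin s → ℝ) (τ η : ℝ) : Set (Fin s → ℕ) :=
  {x | (∀ i, μ i < x i) ∧ |∑ i, ((x i : ℝ) - μ i) ^ k - τ| < η}

/-- The set of the tuples of natural numbers `x i > μ i` with `∑ ⌊(x i - μ i)^k⌋ = n`. -/
def IntSol (k s : ℕ) (μ : Fin s → ℝ) (n : ℕ) : Set (Fin s → ℕ) :=
  {x | (∀ i, μ i < x i) ∧ ∑ i, ⌊((x i : ℝ) - μ i) ^ k⌋ = n}

/-- **Main theorem.** For every `k ≥ 2` (powers of `2` included) there is `κ > 0` such that for almost all shifts
`μ ∈ ℝ^(2 k + 1)` (and for almost all `μ ∈ ℝ^s`, `s ≥ 2 k + 1`) there is `c > 0` with: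

(1) every large natural number `n` has at least `c n^(s/k - 1)` representations as a sum of `s` terms
`⌊(x_i - μ_i)^k⌋`, `x_i > μ_i` natural numbers;

(2) for all large real `τ` and all `η ∈ [τ^(-κ), 1]` there are at least `c η τ^(s/k - 1)` tuples of natural numbers
`x_i > μ_i` with `|∑ (x_i - μ_i)^k - τ| < η`. (All these sets are finite.) -/
theorem result (k : ℕ) (hk : 2 ≤ k) :
    ∃ κ : ℝ, 0 < κ ∧ ∀ s : ℕ, 2 * k + 1 ≤ s → ∀ᵐ μ : Fin s → ℝ, ∃ c : ℝ, 0 < c ∧
      (∀ᶠ n : ℕ in atTop, (IntSol k s μ n).Finite ∧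
        c * (n : ℝ) ^ ((s : ℝ) / k - 1) ≤ (IntSol k s μ n).ncard) ∧
      (∀ᶠ τ : ℝ in atTop, ∀ η : ℝ, τ ^ (-κ) ≤ η → η ≤ 1 → (RealSol k s μ τ η).Finite ∧
        c * η * τ ^ ((s : ℝ) / k - 1) ≤ (RealSol k s μ τ η).ncard) := by
  obtain ⟨κ, hκ, h⟩ := Pool.Agent.Y935.WR.main Pool.Agent.Y434.WR.circ Pool.Agent.Y614.WR.low
    Pool.Agent.Y496.WR.mvs k hk
  refine ⟨κ, hκ, fun s hs => ?_⟩
  filter_upwards [h s hs] with μ hμ
  obtain ⟨c, hc, h1, h2⟩ := hμ
  exact ⟨c, hc, h2, h1⟩

end Pool.Agent.Results.MP_efcac8_nt.ShiftedPowers
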